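import Pool.Agent.H7.CP.Targets

/-!
# MP_e37c09_lc, board `cap_modules`: pigeonhole for patterns
-/

open Ordinal Cardinal Order Set
open scoped ZFSet

universe u

namespace Pool.Agent.H56.CP.PGN

open _root_.HD

theorem X : T_PGN.{u} := by
  intro B K R S hB hK hBK hR
  classical
  have hKcof : K.ord.cof = K := hK.cof_ord
  have hK0 : ℵ₀ < K.ord.cof := by
    rw [hKcof]
    exact (hB.trans_lt (Cardinal.cantor B)).trans hBK
  obtain ⟨C, hC⟩ : ∃ C : Cardinal.{u}, C = 2 ^ B := ⟨_, rfl⟩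
  rw [← hC] at hBK
  let α : Type u := B.ord.ToType
  have hα : #α = B := by
    show #(B.ord.ToType) = B
    rw [mk_toType, card_ord]
  have hP : #(Set α) = #(C.ord.ToType) := by
    rw [mk_set, hα, mk_toType, card_ord, hC]
  obtain ⟨e⟩ := Cardinal.eq.1 hP
  let tt := (ToType.mk (o := C.ord))
  let ta := (ToType.mk (o := B.ord))
  let g : Ordinal.{u} → Set α := fun i =>
    if h : i < C.ord then e.symm (tt ⟨i, h⟩) else ∅
  let p : Ordinal.{u} → Set α := fun γ => {a | γ ∈ S (ta.symm a).1}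
  have hsur : ∀ x : Set α, ∃ i < C.ord, g i = x := by
    intro x
    refine ⟨(tt.symm (e x)).1, (tt.symm (e x)).2, ?_⟩
    have h1 : (tt.symm (e x)).1 < C.ord := (tt.symm (e x)).2
    simp only [g]
    rw [dif_pos h1]
    have h2 : (⟨(tt.symm (e x)).1, h1⟩ : Set.Iio C.ord) = tt.symm (e x) := rfl
    rw [h2, OrderIso.apply_symm_apply, Equiv.symm_apply_apply]
  have hex : ∃ i < C.ord, Pos om K.ord {γ | γ ∈ R ∧ p γ = g i} := by
    by_contra hno
    push Not at hno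
    have h1 := All.va om K.ord hK0 C.ord (by rw [card_ord, hKcof]; exact hBK)
      (fun i => {γ | γ ∈ R ∧ p γ = g i}) hno
    refine h1 (hR.mono fun b _ hb _ => ?_)
    obtain ⟨i, hi, hgi⟩ := hsur (p b)
    exact ⟨i, hi, hb, hgi.symm⟩
  obtain ⟨i, _, hpos⟩ := hex
  refine ⟨{γ | γ ∈ R ∧ p γ = g i}, fun γ h => h.1, hpos, fun j hj => ?_⟩
  have key : ∀ γ, p γ = g i → (γ ∈ S j ↔ ta ⟨j, hj⟩ ∈ g i) := by
    intro γ h
    rw [← h]
    show γ ∈ S j ↔ γ ∈ S (ta.symm (ta ⟨j, hj⟩)).1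
    rw [OrderIso.symm_apply_apply]
  by_cases h : ta ⟨j, hj⟩ ∈ g i
  · exact Or.inl fun γ hγ => (key γ hγ.2).2 h
  · exact Or.inr fun γ hγ h2 => h ((key γ hγ.2).1 h2)

end Pool.Agent.H56.CP.PGN
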